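import Pool.Agent.TH681.QC.Cube
import Pool.Agent.W245.PB.Gen
import Pool.Agent.W245.PB.RelFour

/-!
# Density theorems for an abstract logarithm with the error term `C (log log x) ^ C / log x`
-/

set_option autoImplicit false
set_option linter.unusedSectionVars false
set_option linter.unusedVariables false

namespace Pool.Agent.TH681.QC

open Finset Module Pool.Agent.H297R2 Pool.Agent.W245 Pool.Agent.W245.PB

/-! ### The error term -/

/-- the error term -/
noncomputable def er (c x : ℕ) : ℝ := c * Real.log (Real.log x) ^ c / Real.log x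

theorem log_ge {x : ℕ} (hx : 16 ≤ x) : (2.72 : ℝ) ≤ Real.log x := by
  have h16 : Real.log (16 : ℝ) = 4 * Real.log 2 := by
    rw [show (16 : ℝ) = 2 ^ (4 : ℕ) by norm_num, Real.log_pow]
    norm_num
  have h2 := Real.log_two_gt_d9
  have h3 : Real.log (16 : ℝ) ≤ Real.log x := Real.log_le_log (by norm_num) (by exact_mod_cast hx)
  linarith

theorem loglog_ge {x : ℕ} (hx : 16 ≤ x) : (1 : ℝ) ≤ Real.log (Real.log x) := by
  rw [Real.le_log_iff_exp_le (by linarith [log_ge hx])]
  linarith [log_ge hx, Real.exp_one_lt_d9]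

theorem er_nonneg (c : ℕ) {x : ℕ} (hx : 16 ≤ x) : 0 ≤ er c x := by
  unfold er
  have := log_ge hx
  have := loglog_ge hx
  positivity

theorem er_pos (c : ℕ) (hc : 0 < c) {x : ℕ} (hx : 16 ≤ x) : 0 < er c x := by
  unfold er
  have h1 := log_ge hx
  have h2 := loglog_ge hx
  have h3 : (0 : ℝ) < c := by exact_mod_cast hc
  positivity

theorem er_mono {c d : ℕ} (h : c ≤ d) {x : ℕ} (hx : 16 ≤ x) : er c x ≤ er d x := by
  unfold er
  have h1 := log_ge hx
  have h2 := loglog_ge hx
  have h3 : (c : ℝ) ≤ d := by exact_mod_cast h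
  have h4 : Real.log (Real.log x) ^ c ≤ Real.log (Real.log x) ^ d := pow_le_pow_right₀ h2 h
  gcongr

theorem er_half {c d : ℕ} (h : c ≤ d) {x : ℕ} (hx : 16 ≤ x) : er c x ≤ er (2 * d) x / 2 := by
  have h1 := log_ge hx
  have h2 := loglog_ge hx
  have h3 : (c : ℝ) ≤ d := by exact_mod_cast h
  have h4 : Real.log (Real.log x) ^ c ≤ Real.log (Real.log x) ^ (2 * d) :=
    pow_le_pow_right₀ h2 (by omega)
  have h5 : er (2 * d) x / 2 = d * Real.log (Real.log x) ^ (2 * d) / Real.log x := by
    unfold er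
    push_cast
    ring
  rw [h5]
  unfold er
  gcongr

/-- The cube theorem in terms of the error term. -/
theorem cubes_er (r y : ℕ) : ∃ c : ℕ, ∀ x ≥ 16, ∀ A : Finset ℕ, A ⊆ Ioc 0 x →
    er c x * x < A.card → HasCube r y A := by
  obtain ⟨C, hC, h⟩ := cubes r y
  refine ⟨max ⌈C⌉₊ r, fun x hx A hA hcard => h x hx A hA (lt_of_le_of_lt ?_ hcard)⟩
  have h1 := log_ge hx
  have h2 := loglog_ge hx
  have h3 : C ≤ ((max ⌈C⌉₊ r : ℕ) : ℝ) :=
    (Nat.le_ceil C).trans (by exact_mod_cast le_max_left _ _)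
  have h4 : Real.log (Real.log x) ^ r ≤ Real.log (Real.log x) ^ (max ⌈C⌉₊ r) :=
    pow_le_pow_right₀ h2 (le_max_right _ _)
  unfold er
  calc C * x * Real.log (Real.log x) ^ r / Real.log x
      = (C * Real.log (Real.log x) ^ r / Real.log x) * x := by ring
    _ ≤ _ := by gcongr

/-! ### One variable -/

/-- The one-variable theorem. -/
theorem rate_one (N D : ℕ) : ∃ c : ℕ, ∀ x ≥ 16,
    ∀ (κ C : Type) [Field κ] [IsAlgClosed κ] [CharZero κ] [Field C] [Algebra κ C] (lg : ℕ → C),
    LogLike κ lg → ∀ W : Submodule κ C, Module.Finite κ W →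
    finrank κ W ≤ N → ∀ A : Finset ℕ, A ⊆ Ioc 0 x →
    (∀ n ∈ A, ¬ NoRelOver W D (lg n)) → (A.card : ℝ) ≤ er c x * x := by
  classical
  obtain ⟨r, hr⟩ := cube_over_unif N D
  obtain ⟨c, hc⟩ := cubes_er r 0
  refine ⟨c, fun x hx κ C _ _ _ _ _ lg hlg W hWf hWN A hA hbad => ?_⟩
  by_contra hcon
  push Not at hcon
  obtain ⟨a, p, q, ha, hp, hq, hinj, hcube⟩ := hc x hx A hA hcon
  obtain ⟨S, hS⟩ := hr κ C W hWf hWN (lg (a * ∏ i, p i)) (fun i => lg (q i) - lg (p i))
    (hlg.indep r p q (fun i => (hp i).1) (fun i => (hq i).1) hinj)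
  apply hbad _ (hcube S)
  rw [hlg.cube a p q ha (fun i => (hp i).1.pos) (fun i => (hq i).1.pos) S]
  exact hS

/-- The uniform theorem for tuples, zero coefficient property. -/
theorem rate_goodZ (k : ℕ) : ∀ (m : ℕ),
    ∃ c : ℕ, ∀ x ≥ 16, ∀ (κ C : Type) [Field κ] [IsAlgClosed κ] [CharZero κ] [Field C]
      [CharZero C] [Algebra κ C] (lg : ℕ → C), LogLike κ lg → ∀ V : Submodule ℚ C,
      Module.Finite ℚ V → finrank ℚ V ≤ m → SingularHasZero V → ∀ B : Finset (Fin k → ℕ),
      B ⊆ Fintype.piFinset (fun _ : Fin k => Ioc 0 x) → (∀ a ∈ B, ¬ GoodZ V lg a) →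
      (B.card : ℝ) ≤ er c x * x ^ k := by
  classical
  induction k with
  | zero =>
    intro m
    refine ⟨0, fun x hx κ C _ _ _ _ _ _ lg hlg V hVf hVm hV B hB hbad => ?_⟩
    have : B = ∅ := by
      rw [Finset.eq_empty_iff_forall_notMem]
      intro a ha
      apply hbad a ha
      unfold GoodZ
      have : Submodule.span ℚ (Set.range fun i : Fin 0 => lg (a i)) = ⊥ := by
        rw [Set.range_eq_empty, Submodule.span_empty]
      rw [this, sup_bot_eq]
      exact ⟨hV, rfl⟩
    rw [this]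
    simp [er_nonneg 0 hx]
  | succ k ih =>
    intro m
    choose f hf using fun d : ℕ => rate_one ((m + 1) ^ (d + 1)) (d + 1)
    obtain ⟨c₂, hc₂⟩ := ih (m + 1)
    refine ⟨2 * ((Finset.range (m + 1)).sup f + c₂ + 1),
      fun x hx κ C _ _ _ _ _ _ lg hlg V hVf hVm hV B hB hbad => ?_⟩
    have h0 := affSpan_finite (κ := κ) V
    obtain ⟨h2, h3⟩ := finrank_pow_le (affSpan κ V)
      (m + 1) ((finrank_affSpan_le V).trans (by omega)) (finrank ℚ V + 1)
    have hfx : f (finrank ℚ V) ≤ (Finset.range (m + 1)).sup f + c₂ + 1 := by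
      have : f (finrank ℚ V) ≤ (Finset.range (m + 1)).sup f :=
        Finset.le_sup (f := f) (Finset.mem_range.2 (Nat.lt_succ_of_le hVm))
      omega
    refine count_cons k x _ (er_pos _ (by omega) hx) (fun a => ¬ GoodZ V lg a)
      ((Ioc 0 x).filter (fun n => ¬ NoRelOver (affSpan κ V ^ (finrank ℚ V + 1))
        (finrank ℚ V + 1) (lg n))) (Finset.filter_subset _ _) ?_ ?_ B hB hbad
    · refine (hf (finrank ℚ V) x hx κ C lg hlg _ h2 h3 _ (Finset.filter_subset _ _)
        (fun n hn => (Finset.mem_filter.1 hn).2)).trans ?_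
      have := er_half hfx hx
      gcongr
    · intro a ha haA B' hB' hbad'
      have hta : NoRelOver (affSpan κ V ^ (finrank ℚ V + 1)) (finrank ℚ V + 1) (lg a) := by
        by_contra hcon
        exact haA (Finset.mem_filter.2 ⟨ha, hcon⟩)
      have hrk := finrank_sup_span_singleton' (K := ℚ) (not_mem_of_noRelOver' hta)
      have hle : finrank ℚ (V ⊔ Submodule.span ℚ {lg a} : Submodule ℚ C) ≤ m + 1 := by
        rw [hrk]; omega
      refine (hc₂ x hx κ C lg hlg
        (V ⊔ Submodule.span ℚ {lg a}) inferInstance hle (extend V hV _ hta) B' hB'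
          ?_).trans ?_
      · intro n hn hg
        apply hbad' n hn
        unfold GoodZ
        rw [span_cons]
        refine ⟨hg.1, ?_⟩
        rw [hg.2, hrk]
        ring
      · have := er_half (c := c₂) (d := (Finset.range (m + 1)).sup f + c₂ + 1) (by omega) hx
        gcongr

/-- The uniform theorem for tuples, no new singular `2 × 2` matrices. -/
theorem rate_goodR (k : ℕ) : ∀ (m : ℕ),
    ∃ c : ℕ, ∀ x ≥ 16, ∀ (K κ C : Type) [Field K] [Field κ] [IsAlgClosed κ] [CharZero κ] [Field C]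
      [Algebra K C] [Algebra κ C] [Algebra K κ] [IsScalarTower K κ C] (lg : ℕ → C), LogLike κ lg →
      ∀ V V' : Submodule K C, Module.Finite K V' → finrank K V' ≤ m → RelFour V V' →
      ∀ B : Finset (Fin k → ℕ),
      B ⊆ Fintype.piFinset (fun _ : Fin k => Ioc 0 x) → (∀ a ∈ B, ¬ GoodR V V' lg a) →
      (B.card : ℝ) ≤ er c x * x ^ k := by
  classical
  induction k with
  | zero =>
    intro m
    refine ⟨0, fun x hx K κ C _ _ _ _ _ _ _ _ _ lg hlg V V' hVf hVm hV B hB hbad => ?_⟩
    have : B = ∅ := by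
      rw [Finset.eq_empty_iff_forall_notMem]
      intro a ha
      apply hbad a ha
      unfold GoodR
      have : Submodule.span K (Set.range fun i : Fin 0 => lg (a i)) = ⊥ := by
        rw [Set.range_eq_empty, Submodule.span_empty]
      rw [this, sup_bot_eq]
      exact ⟨hV, rfl⟩
    rw [this]
    simp [er_nonneg 0 hx]
  | succ k ih =>
    intro m
    obtain ⟨c₁, hc₁⟩ := rate_one ((m + 1) ^ 2) 2
    obtain ⟨c₂, hc₂⟩ := ih (m + 1)
    refine ⟨2 * (c₁ + c₂ + 1), fun x hx K κ C _ _ _ _ _ _ _ _ _ lg hlg V V' hVf hVm hV B hB hbad => ?_⟩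
    obtain ⟨h2, h3⟩ := coefHull_finite (κ := κ) V' m hVm
    refine count_cons k x _ (er_pos _ (by omega) hx) (fun a => ¬ GoodR V V' lg a)
      ((Ioc 0 x).filter (fun n => ¬ NoRelOver (coefSp (hull κ V')) 2 (lg n)))
      (Finset.filter_subset _ _) ?_ ?_ B hB hbad
    · refine (hc₁ x hx κ C lg hlg _ h2 h3 _ (Finset.filter_subset _ _)
        (fun n hn => (Finset.mem_filter.1 hn).2)).trans ?_
      have := er_half (c := c₁) (d := c₁ + c₂ + 1) (by omega) hx
      gcongr
    · intro a ha haA B' hB' hbad'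
      have hta : NoRelOver (coefSp (hull κ V')) 2 (lg a) := by
        by_contra hcon
        exact haA (Finset.mem_filter.2 ⟨ha, hcon⟩)
      have hrk := finrank_sup_span_singleton' (K := K) (not_mem_of_coefHull (κ := κ) hta)
      have hle : finrank K (V' ⊔ Submodule.span K {lg a} : Submodule K C) ≤ m + 1 := by
        rw [hrk]; omega
      refine (hc₂ x hx K κ C lg hlg V
        (V' ⊔ Submodule.span K {lg a}) inferInstance hle
        (hV.extend _ hta) B' hB' ?_).trans ?_
      · intro n hn hg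
        apply hbad' n hn
        unfold GoodR
        rw [span_cons]
        refine ⟨hg.1, ?_⟩
        rw [hg.2, hrk]
        ring
      · have := er_half (c := c₂) (d := c₁ + c₂ + 1) (by omega) hx
        gcongr

/-- The theorem for all fields of algebraic numbers. -/
theorem rate_sub (k m : ℕ) :
    ∃ c : ℕ, ∀ x ≥ 16, ∀ (C : Type) [Field C] [CharZero C] [IsAlgClosed (algebraicClosure ℚ C)]
      (lg : ℕ → C), LogLike (algebraicClosure ℚ C) lg →
      ∀ K : IntermediateField ℚ C, K ≤ algebraicClosure ℚ C →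
      ∀ V : Submodule K C, Module.Finite K V → finrank K V ≤ m → ∀ B : Finset (Fin k → ℕ),
      B ⊆ Fintype.piFinset (fun _ : Fin k => Ioc 0 x) → (∀ a ∈ B, ¬ GoodR V V lg a) →
      (B.card : ℝ) ≤ er c x * x ^ k := by
  obtain ⟨c, hc⟩ := rate_goodR k m
  refine ⟨c, fun x hx C _ _ _ lg hlg K hK V hVf hVm B hB hbad => ?_⟩
  let _ : Algebra K (algebraicClosure ℚ C) := (IntermediateField.inclusion hK).toAlgebra
  have : IsScalarTower K (algebraicClosure ℚ C) C := IsScalarTower.of_algebraMap_eq (fun _ => rfl)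
  exact hc x hx K (algebraicClosure ℚ C) C lg hlg V V hVf hVm (RelFour.refl V) B hB hbad

end Pool.Agent.TH681.QC
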