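import Pool.Agent.TH681.QC.Rate
import Pool.Agent.H351R3.Gel.Cubes

/-!
Integers with few exceptions, all algebraic exponents at once (adaptation of
`Pool.Agent.H351R3.Gel.Density`).
-/

set_option autoImplicit false

namespace Pool.Agent.TH681.QC

open Pool.Agent.H297R2 Pool.Agent.H351R3.Gel Complex Finset

theorem rate_gel (D : ℕ) : ∃ c : ℕ, ∀ x ≥ 16, ∀ A : Finset ℕ, A ⊆ Ioc 0 x →
    (∀ n ∈ A, ∃ α : ℂ, IsAlgebraic ℚ α ∧ α ≠ 0 ∧ DegLe QB D (cexp α) (Real.log n : ℂ) ∧
      DegLe QB D (Real.log n : ℂ) (cexp α)) → (A.card : ℝ) ≤ er c x * x := by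
  classical
  obtain ⟨r, hr1, hr⟩ := cube D
  obtain ⟨c, hc⟩ := cubes_er r 0
  refine ⟨c, fun x hx A hA hbad => ?_⟩
  by_contra hcon
  push Not at hcon
  obtain ⟨a, p, q, ha, hp, hq, hinj, hcube⟩ := hc x hx A hA hcon
  set P : Fin r ⊕ Fin r → ℕ := Sum.elim p q with hPdef
  have hPprime : ∀ i, (P i).Prime := by
    rintro (i | i)
    · exact (hp i).1
    · exact (hq i).1
  have hli := linearIndependent_log_prime P hPprime hinj
  set w : Fin r → ℂ := fun i => (Real.log (q i) : ℂ) - (Real.log (p i) : ℂ) with hw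
  have hwli : LinearIndependent ℚ w := by
    rw [Fintype.linearIndependent_iff] at hli ⊢
    intro c hc i
    have h1 := hli (Sum.elim (fun i => -c i) c) (by
      rw [Fintype.sum_sum_type, ← hc, ← Finset.sum_add_distrib]
      apply Finset.sum_congr rfl
      intro i _
      simp only [Sum.elim_inl, Sum.elim_inr, hw, hPdef, smul_sub, neg_smul]
      ring) (Sum.inr i)
    simpa using h1
  have hap : (0 : ℝ) < a := by exact_mod_cast ha
  have hpp : ∀ i, (0 : ℝ) < p i := fun i => by exact_mod_cast (hp i).1.pos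
  have hqp : ∀ i, (0 : ℝ) < q i := fun i => by exact_mod_cast (hq i).1.pos
  have key : ∀ S : Finset (Fin r), Real.log ((a * ∏ i, (if i ∈ S then q i else p i) : ℕ) : ℝ) =
      Real.log ((a * ∏ i, p i : ℕ) : ℝ) + ∑ i ∈ S, (Real.log (q i) - Real.log (p i)) := by
    intro S
    push_cast
    rw [Real.log_mul hap.ne' (Finset.prod_ne_zero_iff.2 (fun i _ => by
      split_ifs
      · exact (hqp i).ne'
      · exact (hpp i).ne')),
      Real.log_mul hap.ne' (Finset.prod_ne_zero_iff.2 (fun i _ => (hpp i).ne')),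
      Real.log_prod (fun i _ => by
        split_ifs
        · exact (hqp i).ne'
        · exact (hpp i).ne'), Real.log_prod (fun i _ => (hpp i).ne'), add_assoc]
    congr 1
    rw [← Finset.sum_filter_add_sum_filter_not univ (fun i => i ∈ S)
      (fun i => Real.log (if i ∈ S then (q i : ℝ) else (p i : ℝ))),
      ← Finset.sum_filter_add_sum_filter_not univ (fun i => i ∈ S) (fun i => Real.log (p i : ℝ))]
    have e1 : univ.filter (fun i => i ∈ S) = S := by ext i; simp
    rw [e1]
    have e2 : ∑ i ∈ S, Real.log (if i ∈ S then (q i : ℝ) else (p i : ℝ)) = ∑ i ∈ S, Real.log (q i : ℝ) := by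
      apply Finset.sum_congr rfl
      intro i hi
      rw [if_pos hi]
    have e3 : ∑ i ∈ univ.filter (fun i => i ∉ S), Real.log (if i ∈ S then (q i : ℝ) else (p i : ℝ)) =
        ∑ i ∈ univ.filter (fun i => i ∉ S), Real.log (p i : ℝ) := by
      apply Finset.sum_congr rfl
      intro i hi
      rw [Finset.mem_filter] at hi
      rw [if_neg hi.2]
    rw [e2, e3, Finset.sum_sub_distrib]
    ring
  set v₀ : ℂ := (Real.log ((a * ∏ i, p i : ℕ) : ℝ) : ℂ) with hv₀
  have key2 : ∀ S : Finset (Fin r), (Real.log ((a * ∏ i, (if i ∈ S then q i else p i) : ℕ) : ℝ) : ℂ) =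
      v₀ + ∑ i ∈ S, w i := by
    intro S
    rw [key, hw, hv₀]
    simp only [Complex.ofReal_add, Complex.ofReal_sum, Complex.ofReal_sub]
  have hpos : ∀ S : Finset (Fin r), 0 < Real.log ((a * ∏ i, (if i ∈ S then q i else p i) : ℕ) : ℝ) := by
    intro S
    apply Real.log_pos
    have h1 : 1 < a * ∏ i, (if i ∈ S then q i else p i) := by
      have h2 : ∀ i : Fin r, 1 < (if i ∈ S then q i else p i) := by
        intro i
        split_ifs
        · exact (hq i).1.one_lt
        · exact (hp i).1.one_lt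
      have h3 : (if (⟨0, hr1⟩ : Fin r) ∈ S then q ⟨0, hr1⟩ else p ⟨0, hr1⟩) ∣
          ∏ i, (if i ∈ S then q i else p i) :=
        Finset.dvd_prod_of_mem (fun i => if i ∈ S then q i else p i) (Finset.mem_univ _)
      have h4 : 0 < ∏ i, (if i ∈ S then q i else p i) :=
        Finset.prod_pos (fun i _ => (zero_lt_one.trans (h2 i)))
      exact (h2 ⟨0, hr1⟩).trans_le ((Nat.le_of_dvd h4 h3).trans (Nat.le_mul_of_pos_left _ ha))
    exact_mod_cast h1
  have hv₀e : v₀ = (Real.log ((a * ∏ i, (if i ∈ (∅ : Finset (Fin r)) then q i else p i) : ℕ) : ℝ) : ℂ) := by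
    rw [key2, Finset.sum_empty, add_zero]
  obtain ⟨S, hS⟩ := hr v₀ w (by
      rw [hv₀]
      exact isAlgebraic_exp_log (Nat.mul_pos ha (Finset.prod_pos (fun i _ => (hp i).1.pos))))
    (by
      intro i
      rw [hw]
      simp only
      rw [Complex.exp_sub, div_eq_mul_inv]
      exact (isAlgebraic_exp_log (hq i).1.pos).mul (isAlgebraic_exp_log (hp i).1.pos).inv) hwli
    (by
      intro S
      rw [← key2]
      exact_mod_cast (hpos S).ne')
    (by
      intro S
      rw [← key2 S, hv₀e]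
      exact_mod_cast (add_pos (hpos ∅) (hpos S)).ne')
  obtain ⟨α, hα1, hα2, hα3, hα4⟩ := hbad _ (hcube S)
  rw [key2] at hα3 hα4
  exact hS α hα1 hα2 ⟨hα3, hα4⟩

end Pool.Agent.TH681.QC
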