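import Pool.Agent.TH681.QC.Rate
import Pool.Agent.W245.TupleOver

/-!
# Tuples without polynomial relations over an abstract logarithm, with an error term
-/

set_option autoImplicit false
set_option linter.unusedSectionVars false
set_option linter.unusedVariables false

namespace Pool.Agent.TH681.QC

open Finset Module Pool.Agent.H297R2 Pool.Agent.W245 Pool.Agent.W245.PB

/-- The uniform theorem for tuples without relations. -/
theorem rate_tup (k : ℕ) : ∀ (N D : ℕ),
    ∃ c : ℕ, ∀ x ≥ 16, ∀ (κ C : Type) [Field κ] [IsAlgClosed κ] [CharZero κ] [Field C]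
      [Algebra κ C] (lg : ℕ → C), LogLike κ lg → ∀ W : Submodule κ C,
      Module.Finite κ W → finrank κ W ≤ N → ∀ B : Finset (Fin k → ℕ),
      B ⊆ Fintype.piFinset (fun _ : Fin k => Ioc 0 x) →
      (∀ a ∈ B, ¬ NoRelT W D (fun i => lg (a i))) → (B.card : ℝ) ≤ er c x * x ^ k := by
  classical
  induction k with
  | zero =>
    intro N D
    refine ⟨0, fun x hx κ C _ _ _ _ _ lg hlg W hWf hWN B hB hbad => ?_⟩
    have : B = ∅ := by
      rw [Finset.eq_empty_iff_forall_notMem]
      intro a ha
      exact hbad a ha (NoRelT.zero _ _ _)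
    rw [this]
    simp [er_nonneg 0 hx]
  | succ k ih =>
    intro N D
    obtain ⟨c₁, hc₁⟩ := rate_one N D
    obtain ⟨c₂, hc₂⟩ := ih (N * (D + 1)) D
    refine ⟨2 * (c₁ + c₂ + 1), fun x hx κ C _ _ _ _ _ lg hlg W hWf hWN B hB hbad => ?_⟩
    refine count_cons k x _ (er_pos _ (by omega) hx) (fun a => ¬ NoRelT W D (fun i => lg (a i)))
      ((Ioc 0 x).filter (fun n => ¬ NoRelOver W D (lg n))) (Finset.filter_subset _ _)
      ?_ ?_ B hB hbad
    · refine (hc₁ x hx κ C lg hlg _ hWf hWN _ (Finset.filter_subset _ _)
        (fun n hn => (Finset.mem_filter.1 hn).2)).trans ?_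
      have := er_half (c := c₁) (d := c₁ + c₂ + 1) (by omega) hx
      gcongr
    · intro a ha haA B' hB' hbad'
      have hta : NoRelOver W D (lg a) := by
        by_contra hcon
        exact haA (Finset.mem_filter.2 ⟨ha, hcon⟩)
      obtain ⟨hf, hr⟩ := powExt_finite W N hWN D (lg a)
      refine (hc₂ x hx κ C lg hlg (powExt W D (lg a)) hf hr B' hB' ?_).trans ?_
      · intro n hn hg
        apply hbad' n hn
        have h3 := NoRelT.cons hta hg
        convert h3 using 1
        funext i
        refine Fin.cases ?_ (fun j => ?_) i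
        · simp
        · simp
      · have := er_half (c := c₂) (d := c₁ + c₂ + 1) (by omega) hx
        gcongr

end Pool.Agent.TH681.QC
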