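import Pool.Agent.TH681.QC.Rate
import Pool.Agent.W245.PB.CLog
import Pool.Agent.H297R2.Tuples

/-!
# Polynomial relations of bounded degree: density theorems with an error term
-/

set_option autoImplicit false
set_option linter.unusedSectionVars false
set_option linter.unusedVariables false

namespace Pool.Agent.TH681.QC

open Finset Module Pool.Agent.H297R2 Pool.Agent.W245 Pool.Agent.W245.PB

/-- The one-variable theorem. -/
theorem rate_oneT (σ : Type) [Fintype σ] (D : ℕ) : ∃ c : ℕ, ∀ x ≥ 16,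
    ∀ t : σ → ℂ, NoRel (algebraicClosure ℚ ℂ) D t → ∀ A : Finset ℕ, A ⊆ Ioc 0 x →
    (∀ n ∈ A, ¬ NoRel (algebraicClosure ℚ ℂ) D (fun o : Option σ => o.elim (Real.log n : ℂ) t)) →
    (A.card : ℝ) ≤ er c x * x := by
  classical
  have hac : IsAlgClosed (algebraicClosure ℚ ℂ) := (algebraicClosure.isAlgClosure ℚ ℂ).isAlgClosed
  obtain ⟨r, hr⟩ := cube_free (algebraicClosure ℚ ℂ) ℂ σ D
  obtain ⟨c, hc⟩ := cubes_er r 0
  refine ⟨c, fun x hx t ht A hA hbad => ?_⟩
  by_contra hcon
  push Not at hcon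
  obtain ⟨a, p, q, ha, hp, hq, hinj, hcube⟩ := hc x hx A hA hcon
  obtain ⟨S, hS⟩ := hr t ht (Real.log ((a * ∏ i, p i : ℕ) : ℝ) : ℂ)
    (fun i => (Real.log (q i) : ℂ) - (Real.log (p i) : ℂ))
    (logLike_complex.indep r p q (fun i => (hp i).1) (fun i => (hq i).1) hinj)
  apply hbad _ (hcube S)
  rw [logLike_complex.cube a p q ha (fun i => (hp i).1.pos) (fun i => (hq i).1.pos) S]
  exact hS

open Classical in
/-- The uniform theorem for tuples. -/
theorem rate_tuples (k : ℕ) : ∀ (σ : Type) [Fintype σ] (D : ℕ),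
    ∃ c : ℕ, ∀ x : ℕ, x ≥ 16 → ∀ t : σ → ℂ, NoRel (algebraicClosure ℚ ℂ) D t →
    (((Fintype.piFinset fun _ : Fin k => Ioc 0 x).filter (fun n =>
      ¬ NoRel (algebraicClosure ℚ ℂ) D (Sum.elim t (fun i => (Real.log (n i) : ℂ))))).card : ℝ) ≤
      er c x * x ^ k := by
  induction k with
  | zero =>
    intro σ _ D
    refine ⟨0, fun x hx t ht => ?_⟩
    rw [Finset.filter_false_of_mem]
    · simp [er_nonneg 0 hx]
    · intro n _
      push Not
      rw [← NoRel.reindex_iff (Equiv.sumEmpty σ (Fin 0)).symm]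
      exact ht
  | succ k ih =>
    intro σ _ D
    obtain ⟨c₁, hc₁⟩ := rate_oneT σ D
    obtain ⟨c₂, hc₂⟩ := ih (Option σ) D
    refine ⟨2 * (c₁ + c₂ + 1), fun x hx t ht => ?_⟩
    refine count_cons k x _ (er_pos _ (by omega) hx)
      (fun n => ¬ NoRel (algebraicClosure ℚ ℂ) D (Sum.elim t (fun i => (Real.log (n i) : ℂ))))
      ((Ioc 0 x).filter (fun n : ℕ =>
        ¬ NoRel (algebraicClosure ℚ ℂ) D (fun o : Option σ => o.elim (Real.log n : ℂ) t)))
      (Finset.filter_subset _ _) ?_ ?_ _ (Finset.filter_subset _ _)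
      (fun n hn => (Finset.mem_filter.1 hn).2)
    · refine (hc₁ x hx t ht _ (Finset.filter_subset _ _)
        (fun n hn => (Finset.mem_filter.1 hn).2)).trans ?_
      have := er_half (c := c₁) (d := c₁ + c₂ + 1) (by omega) hx
      gcongr
    · intro a ha haA B' hB' hbad'
      have hta : NoRel (algebraicClosure ℚ ℂ) D (fun o : Option σ => o.elim (Real.log a : ℂ) t) := by
        by_contra hcon
        exact haA (Finset.mem_filter.2 ⟨ha, hcon⟩)
      have h1 := hc₂ x hx _ hta
      have h2 : B' ⊆ (Fintype.piFinset fun _ : Fin k => Ioc 0 x).filter (fun n =>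
          ¬ NoRel (algebraicClosure ℚ ℂ) D (Sum.elim (fun o : Option σ => o.elim (Real.log a : ℂ) t)
            (fun i => (Real.log (n i) : ℂ)))) := by
        intro m hm
        rw [Finset.mem_filter]
        refine ⟨hB' hm, ?_⟩
        have h3 := hbad' m hm
        rw [← NoRel.reindex_iff (optEquiv σ k)] at h3
        have : (Sum.elim t (fun i => (Real.log ((Fin.cons a m : Fin (k + 1) → ℕ) i) : ℂ))) ∘ optEquiv σ k =
            Sum.elim (fun o : Option σ => o.elim (Real.log a : ℂ) t) (fun i => (Real.log (m i) : ℂ)) := by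
          funext s
          rcases s with (_ | i) | j <;> simp [optEquiv]
        rwa [this] at h3
      have h4 : (B'.card : ℝ) ≤ _ := (Nat.cast_le.2 (Finset.card_le_card h2)).trans h1
      refine h4.trans ?_
      have := er_half (c := c₂) (d := c₁ + c₂ + 1) (by omega) hx
      gcongr

end Pool.Agent.TH681.QC
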