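import Mathlib

/-!
# Boxes in dense subsets of products
-/

set_option autoImplicit false

namespace Pool.Agent.TH681.QC

open Finset

open Classical in
/-- the number of solutions, counted by the tail -/
theorem card_tail {r : ℕ} (V : Fin (r + 1) → Finset ℕ) (E : (Fin (r + 1) → ℕ) → Prop) :
    ((Fintype.piFinset V).filter E).card =
      ∑ t ∈ Fintype.piFinset (fun i : Fin r => V i.succ),
        ((V 0).filter (fun p => E (Fin.cons p t))).card := by
  rw [card_eq_sum_card_fiberwise (f := fun n : Fin (r + 1) → ℕ => Fin.tail n)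
    (t := Fintype.piFinset (fun i : Fin r => V i.succ))]
  · refine sum_congr rfl (fun t ht => ?_)
    refine card_bij' (fun n _ => n 0) (fun p _ => Fin.cons p t) ?_ ?_ ?_ ?_
    · intro n hn
      rw [mem_filter, mem_filter, Fintype.mem_piFinset] at hn
      rw [mem_filter]
      refine ⟨hn.1.1 0, ?_⟩
      rw [← hn.2, Fin.cons_self_tail]
      exact hn.1.2
    · intro p hp
      rw [mem_filter] at hp
      rw [mem_filter, mem_filter, Fintype.mem_piFinset]
      refine ⟨⟨?_, hp.2⟩, Fin.tail_cons _ _⟩
      intro i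
      refine Fin.cases ?_ (fun i => ?_) i
      · exact hp.1
      · exact (Fintype.mem_piFinset.1 ht) i
    · intro n hn
      rw [mem_filter] at hn
      rw [← hn.2, Fin.cons_self_tail]
    · intro p hp
      exact Fin.cons_zero _ _
  · intro n hn
    have hn' : n ∈ (Fintype.piFinset V).filter E := hn
    rw [mem_filter, Fintype.mem_piFinset] at hn'
    rw [mem_coe, Fintype.mem_piFinset]
    exact fun i => hn'.1 i.succ

open Classical in
theorem boxes (r : ℕ) : ∀ (V : Fin r → Finset ℕ) (E : (Fin r → ℕ) → Prop) (e : ℝ), 0 < e → e ≤ 1 →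
    (∀ i, (2 / e) ^ (2 ^ r) ≤ ((V i).card : ℝ)) →
    e * ∏ i, ((V i).card : ℝ) ≤ ((Fintype.piFinset V).filter E).card →
    ∃ p q : Fin r → ℕ, (∀ i, p i ≠ q i) ∧
      ∀ S : Finset (Fin r), E (fun i => if i ∈ S then q i else p i) := by
  induction r with
  | zero =>
    intro V E e he _ _ hcard
    simp only [univ_eq_empty, prod_empty, mul_one] at hcard
    have h1 : (0 : ℝ) < ((Fintype.piFinset V).filter E).card := lt_of_lt_of_le he hcard
    obtain ⟨f, hf⟩ := card_pos.1 (by exact_mod_cast h1 : 0 < ((Fintype.piFinset V).filter E).card)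
    rw [mem_filter] at hf
    refine ⟨Fin.elim0, Fin.elim0, fun i => i.elim0, fun S => ?_⟩
    have : (fun i : Fin 0 => if i ∈ S then Fin.elim0 i else Fin.elim0 i) = f :=
      Subsingleton.elim _ _
    rw [this]
    exact hf.2
  | succ r ih =>
    intro V E e he he1 hV hcard
    set T := Fintype.piFinset (fun i : Fin r => V i.succ) with hT
    set f : (Fin r → ℕ) → ℝ := fun t => ∑ p ∈ V 0, (if E (Fin.cons p t) then (1 : ℝ) else 0) with hf
    set c : ℕ → ℕ → ℝ := fun p q =>
      ∑ t ∈ T, (if E (Fin.cons p t) ∧ E (Fin.cons q t) then (1 : ℝ) else 0) with hc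
    set X : ℝ := (((Fintype.piFinset V).filter E).card : ℝ) with hX
    have hXf : X = ∑ t ∈ T, f t := by
      rw [hX, card_tail V E, ← hT]
      push_cast
      refine sum_congr rfl (fun t _ => ?_)
      rw [hf]
      simp only
      rw [← sum_filter, sum_const, nsmul_eq_mul, mul_one]
    have hTc : (T.card : ℝ) = ∏ i : Fin r, ((V i.succ).card : ℝ) := by
      rw [hT, Fintype.card_piFinset]
      push_cast
      rfl
    have hprod : ∏ i, ((V i).card : ℝ) = ((V 0).card : ℝ) * T.card := by
      rw [Fin.prod_univ_succ, hTc]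
    rw [hprod] at hcard
    have h2e : 1 ≤ 2 / e := by
      rw [le_div_iff₀ he]; linarith
    have hpos : ∀ i, (0 : ℝ) < ((V i).card : ℝ) := fun i =>
      lt_of_lt_of_le (by positivity) (hV i)
    have hT0 : (0 : ℝ) < T.card := by
      rw [hTc]
      exact prod_pos (fun i _ => hpos i.succ)
    have hV0 : (2 / e) ^ 2 ≤ ((V 0).card : ℝ) := by
      refine le_trans ?_ (hV 0)
      refine pow_le_pow_right₀ h2e ?_
      calc 2 = 2 ^ 1 := rfl
        _ ≤ 2 ^ (r + 1) := Nat.pow_le_pow_right (by norm_num) (by omega)
    set v : ℝ := ((V 0).card : ℝ) with hv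
    have hv0 : 0 < v := hpos 0
    -- Cauchy-Schwarz
    have hCS : X ^ 2 ≤ T.card * ∑ t ∈ T, f t ^ 2 := by
      rw [hXf]
      exact sq_sum_le_card_mul_sum_sq
    have hf2 : ∑ t ∈ T, f t ^ 2 = ∑ p ∈ V 0, ∑ q ∈ V 0, c p q := by
      have e1 : ∀ t, f t ^ 2 = ∑ p ∈ V 0, ∑ q ∈ V 0,
          (if E (Fin.cons p t) ∧ E (Fin.cons q t) then (1 : ℝ) else 0) := by
        intro t
        rw [hf, sq, sum_mul_sum]
        refine sum_congr rfl (fun p _ => sum_congr rfl (fun q _ => ?_))
        by_cases h1 : E (Fin.cons p t) <;> by_cases h2 : E (Fin.cons q t) <;> simp [h1, h2]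
      simp only [e1]
      rw [sum_comm]
      refine sum_congr rfl (fun p _ => ?_)
      rw [sum_comm]
    have hdiag : ∑ p ∈ V 0, c p p = X := by
      rw [hXf, hc]
      simp only [and_self]
      rw [sum_comm]
    by_contra hcon
    have hoff : ∀ p ∈ V 0, ∀ q ∈ V 0, c p q ≤ (if q = p then c p p else e ^ 2 / 2 * T.card) := by
      intro p _ q _
      by_cases hqp : q = p
      · rw [if_pos hqp, hqp]
      · rw [if_neg hqp]
        by_contra hlt
        push Not at hlt
        apply hcon
        obtain ⟨p', q', hne, hbox⟩ := ih (fun i => V i.succ)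
          (fun t => E (Fin.cons p t) ∧ E (Fin.cons q t)) (e ^ 2 / 2) (by positivity)
          (by nlinarith) (by
            intro i
            have h1 : (2 / (e ^ 2 / 2)) ^ (2 ^ r) = (2 / e) ^ (2 ^ (r + 1)) := by
              rw [pow_succ 2 r, mul_comm (2 ^ r) 2, pow_mul]
              congr 1
              field_simp
            rw [h1]
            exact hV i.succ) (by
            rw [← hTc]
            have h1 : c p q = ((T.filter (fun t => E (Fin.cons p t) ∧ E (Fin.cons q t))).card : ℝ) := by
              rw [hc]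
              simp only
              rw [← sum_filter, sum_const, nsmul_eq_mul, mul_one]
            rw [h1] at hlt
            exact hlt.le.trans (le_of_eq (by congr!)))
        refine ⟨Fin.cons p p', Fin.cons q q', ?_, ?_⟩
        · intro i
          refine Fin.cases ?_ (fun i => ?_) i
          · simp only [Fin.cons_zero]
            exact fun h => hqp h.symm
          · simp only [Fin.cons_succ]
            exact hne i
        · intro S
          have h1 := hbox (univ.filter (fun i : Fin r => i.succ ∈ S))
          have h2 : (fun i : Fin (r + 1) => if i ∈ S then (Fin.cons q q' : Fin (r + 1) → ℕ) i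
              else (Fin.cons p p' : Fin (r + 1) → ℕ) i) =
              Fin.cons (if (0 : Fin (r + 1)) ∈ S then q else p)
                (fun i => if i ∈ univ.filter (fun i : Fin r => i.succ ∈ S) then q' i else p' i) := by
            funext i
            refine Fin.cases ?_ (fun i => ?_) i
            · simp
            · simp
          rw [h2]
          by_cases h0 : (0 : Fin (r + 1)) ∈ S
          · rw [if_pos h0]; exact h1.2
          · rw [if_neg h0]; exact h1.1
    have hsum : ∑ p ∈ V 0, ∑ q ∈ V 0, c p q ≤ X + v ^ 2 * (e ^ 2 / 2 * T.card) := by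
      calc ∑ p ∈ V 0, ∑ q ∈ V 0, c p q
          ≤ ∑ p ∈ V 0, ∑ q ∈ V 0, (if q = p then c p p else e ^ 2 / 2 * T.card) :=
            sum_le_sum (fun p hp => sum_le_sum (fun q hq => hoff p hp q hq))
        _ ≤ ∑ p ∈ V 0, (c p p + v * (e ^ 2 / 2 * T.card)) := by
            refine sum_le_sum (fun p hp => ?_)
            have h0 : (0 : ℝ) ≤ e ^ 2 / 2 * T.card := by positivity
            calc ∑ q ∈ V 0, (if q = p then c p p else e ^ 2 / 2 * T.card)
                ≤ ∑ q ∈ V 0, ((if q = p then c p p else 0) + e ^ 2 / 2 * T.card) := by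
                  refine sum_le_sum (fun q _ => ?_)
                  split_ifs <;> linarith
              _ = c p p + v * (e ^ 2 / 2 * T.card) := by
                  rw [sum_add_distrib, sum_ite_eq' (V 0) p, if_pos hp, sum_const, nsmul_eq_mul]
        _ = X + v ^ 2 * (e ^ 2 / 2 * T.card) := by
            rw [sum_add_distrib, hdiag, sum_const, nsmul_eq_mul]
            ring
    rw [hf2] at hCS
    have h3 : X ^ 2 ≤ T.card * (X + v ^ 2 * (e ^ 2 / 2 * T.card)) :=
      hCS.trans (mul_le_mul_of_nonneg_left hsum hT0.le)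
    have h4 : e * (v * T.card) ≤ X := hcard
    have h5 : 4 * (T.card : ℝ) ≤ e * (v * T.card) := by
      have h6 : 4 ≤ e * v := by
        have h7 : e * (2 / e) ^ 2 ≤ e * v := mul_le_mul_of_nonneg_left hV0 he.le
        have h8 : e * (2 / e) ^ 2 = 4 / e := by field_simp; norm_num
        have h9 : 4 ≤ 4 / e := by rw [le_div_iff₀ he]; linarith
        linarith
      calc 4 * (T.card : ℝ) ≤ (e * v) * T.card := mul_le_mul_of_nonneg_right h6 hT0.le
        _ = e * (v * T.card) := by ring
    have h6 : (e * (v * T.card)) ^ 2 ≤ X ^ 2 :=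
      pow_le_pow_left₀ (by positivity) h4 2
    have h7 : (T.card : ℝ) * (v ^ 2 * (e ^ 2 / 2 * T.card)) = (e * (v * T.card)) ^ 2 / 2 := by ring
    have hXp : 0 < X := by nlinarith
    nlinarith

end Pool.Agent.TH681.QC
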