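import Pool.Agent.TH813.Rough

/-!
# Integers with at most `k` large prime factors

Adapted from `TH813.Rough` (`k = 2`).
-/

set_option autoImplicit false

namespace Pool.Agent.TH681.QC

open Finset Pool.Agent.TH813.Rough

/-- few integers have at most `k` prime factors `≥ z` -/
theorem rough_count (k : ℕ) : ∃ C : ℝ, 0 ≤ C ∧ ∀ x z : ℕ, 16 ≤ x → 2 ≤ z →
    (((Icc 1 x).filter (fun n => om z n ≤ k)).card : ℝ) ≤
      C * x * Real.log (Real.log x) ^ k * Real.log z / Real.log x := by
  obtain ⟨C, hC0, hC⟩ := wt_sum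
  set c1 : ℝ := Real.log 4 + 4 with hc1
  have hc1' : 0 ≤ c1 := by
    have : 0 ≤ Real.log 4 := Real.log_nonneg (by norm_num)
    rw [hc1]; linarith
  refine ⟨2 / Real.log 2 + 2 * c1 * Real.exp (2 * C + 1), by positivity, fun x z hx hz => ?_⟩
  have hx0 : (0 : ℝ) < x := by exact_mod_cast (by omega : 0 < x)
  have hx16 : (16 : ℝ) ≤ x := by exact_mod_cast hx
  -- the double logarithm
  have hlog16 : Real.exp 1 ≤ Real.log 16 := by
    have h1 : Real.log 16 = 4 * Real.log 2 := by
      rw [show (16 : ℝ) = 2 ^ 4 by norm_num, Real.log_pow]; norm_num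
    rw [h1]
    have := Real.log_two_gt_d9
    have := Real.exp_one_lt_d9
    linarith
  have hlx : Real.exp 1 ≤ Real.log x := hlog16.trans (Real.log_le_log (by norm_num) hx16)
  have hlx0 : 0 < Real.log x := lt_of_lt_of_le (Real.exp_pos 1) hlx
  have hll : 1 ≤ Real.log (Real.log x) := by
    have := Real.log_le_log (Real.exp_pos 1) hlx
    rwa [Real.log_exp] at this
  have hll0 : 0 < Real.log (Real.log x) := by linarith
  have hlz : Real.log 2 ≤ Real.log z := Real.log_le_log (by norm_num) (by exact_mod_cast hz)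
  have hl2 : 0 < Real.log 2 := Real.log_pos (by norm_num)
  have hlz0 : 0 < Real.log z := by linarith
  set w : ℝ := 1 / Real.log (Real.log x) with hw
  have hw0 : 0 < w := by positivity
  have hw1 : w ≤ 1 := by
    rw [hw, div_le_one hll0]; exact hll
  have h1 := hC w hw0 hw1 z x hz (by omega)
  have h2 : Real.exp (Real.log (Real.log z) + C + w * (Real.log (Real.log x) + C)) ≤
      Real.exp (2 * C + 1) * Real.log z := by
    have h3 : Real.log (Real.log z) + C + w * (Real.log (Real.log x) + C) ≤
        (2 * C + 1) + Real.log (Real.log z) := by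
      have h4 : w * (Real.log (Real.log x) + C) = 1 + w * C := by
        rw [hw]; field_simp
      have h5 : w * C ≤ 1 * C := mul_le_mul_of_nonneg_right hw1 hC0
      linarith
    refine (Real.exp_le_exp.2 h3).trans ?_
    rw [Real.exp_add, Real.exp_log hlz0]
  have h3 := hall hw0 hw1 z x
  have hIcc : Icc 1 x = Ioc 0 x := rfl
  rw [hIcc] at h1
  -- the two parts
  set S := (Icc 1 x).filter (fun n => om z n ≤ k) with hS
  have hsplit : (S.card : ℝ) ≤ ((Icc 1 x).filter (fun n => n * n ≤ x)).card +
      (S.filter (fun n => x < n * n)).card := by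
    have : S ⊆ ((Icc 1 x).filter (fun n => n * n ≤ x)) ∪ (S.filter (fun n => x < n * n)) := by
      intro n hn
      rw [mem_union, mem_filter, mem_filter]
      rcases Nat.lt_or_ge x (n * n) with h | h
      · exact Or.inr ⟨hn, h⟩
      · exact Or.inl ⟨(mem_filter.1 hn).1, h⟩
    exact_mod_cast (card_le_card this).trans (card_union_le _ _)
  have hA : (((Icc 1 x).filter (fun n => n * n ≤ x)).card : ℝ) ≤ Real.sqrt x := by
    have : ((Icc 1 x).filter (fun n => n * n ≤ x)) ⊆ Icc 1 (Nat.sqrt x) := by
      intro n hn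
      rw [mem_filter, mem_Icc] at hn
      rw [mem_Icc]
      exact ⟨hn.1.1, Nat.le_sqrt.2 hn.2⟩
    have h4 := card_le_card this
    rw [Nat.card_Icc, Nat.add_sub_cancel] at h4
    calc (((Icc 1 x).filter (fun n => n * n ≤ x)).card : ℝ) ≤ (Nat.sqrt x : ℝ) := by exact_mod_cast h4
      _ ≤ Real.sqrt x := Real.nat_sqrt_le_real_sqrt
  have hsq : Real.sqrt x ≤ 2 * x / Real.log x := by
    have hs0 : 0 < Real.sqrt x := Real.sqrt_pos.2 hx0
    rw [le_div_iff₀ hlx0]
    have h4 : Real.log x ≤ 2 * Real.sqrt x := by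
      have h5 := Real.log_le_sub_one_of_pos hs0
      rw [Real.log_sqrt hx0.le] at h5
      linarith
    calc Real.sqrt x * Real.log x ≤ Real.sqrt x * (2 * Real.sqrt x) :=
          mul_le_mul_of_nonneg_left h4 hs0.le
      _ = 2 * x := by rw [show Real.sqrt x * (2 * Real.sqrt x) = 2 * (Real.sqrt x * Real.sqrt x) by ring,
          Real.mul_self_sqrt hx0.le]
  have hB : ((S.filter (fun n => x < n * n)).card : ℝ) * (w ^ k * (Real.log x / 2)) ≤
      c1 * x * (Real.exp (2 * C + 1) * Real.log z) := by
    calc ((S.filter (fun n => x < n * n)).card : ℝ) * (w ^ k * (Real.log x / 2))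
        = ∑ n ∈ S.filter (fun n => x < n * n), w ^ k * (Real.log x / 2) := by
          rw [sum_const, nsmul_eq_mul]
      _ ≤ ∑ n ∈ S.filter (fun n => x < n * n), wt w z n * Real.log n := by
          refine sum_le_sum (fun n hn => ?_)
          rw [mem_filter, hS, mem_filter, mem_Icc] at hn
          obtain ⟨⟨⟨h4, h5⟩, h6⟩, h7⟩ := hn
          have h8 : w ^ k ≤ wt w z n := pow_le_pow_of_le_one hw0.le hw1 h6
          have hn0 : (0 : ℝ) < n := by exact_mod_cast h4
          have h9 : Real.log x / 2 ≤ Real.log n := by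
            have h10 : Real.log x ≤ Real.log ((n : ℝ) * n) :=
              Real.log_le_log hx0 (by exact_mod_cast h7.le)
            rw [Real.log_mul hn0.ne' hn0.ne'] at h10
            linarith
          exact mul_le_mul h8 h9 (by positivity) (wt_nonneg hw0 z n)
      _ ≤ ∑ n ∈ Ioc 0 x, wt w z n * Real.log n := by
          refine sum_le_sum_of_subset_of_nonneg ?_ ?_
          · intro n hn
            exact (mem_filter.1 (mem_filter.1 hn).1).1
          · intro n _ _
            exact mul_nonneg (wt_nonneg hw0 z n) (Real.log_natCast_nonneg n)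
      _ ≤ c1 * x * ∑ m ∈ Ioc 0 x, wt w z m / (m : ℝ) := h3
      _ ≤ c1 * x * (Real.exp (2 * C + 1) * Real.log z) :=
          mul_le_mul_of_nonneg_left (h1.trans h2) (by positivity)
  have hB' : ((S.filter (fun n => x < n * n)).card : ℝ) ≤
      (2 * c1 * Real.exp (2 * C + 1)) * x * Real.log (Real.log x) ^ k * Real.log z / Real.log x := by
    rw [le_div_iff₀ hlx0]
    have h4 : w ^ k * Real.log (Real.log x) ^ k = 1 := by
      rw [← mul_pow, hw, one_div, inv_mul_cancel₀ hll0.ne', one_pow]
    calc ((S.filter (fun n => x < n * n)).card : ℝ) * Real.log x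
        = ((S.filter (fun n => x < n * n)).card : ℝ) * Real.log x *
          (w ^ k * Real.log (Real.log x) ^ k) := by rw [h4, mul_one]
      _ = 2 * Real.log (Real.log x) ^ k *
          (((S.filter (fun n => x < n * n)).card : ℝ) * (w ^ k * (Real.log x / 2))) := by ring
      _ ≤ 2 * Real.log (Real.log x) ^ k * (c1 * x * (Real.exp (2 * C + 1) * Real.log z)) :=
          mul_le_mul_of_nonneg_left hB (by positivity)
      _ = _ := by ring
  have hA' : Real.sqrt x ≤ (2 / Real.log 2) * x * Real.log (Real.log x) ^ k * Real.log z /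
      Real.log x := by
    refine hsq.trans ?_
    rw [div_le_div_iff_of_pos_right hlx0]
    have h4 : 1 ≤ Real.log (Real.log x) ^ k := one_le_pow₀ hll
    have h5 : 1 ≤ Real.log z / Real.log 2 := by rw [le_div_iff₀ hl2]; linarith
    calc 2 * (x : ℝ) = 2 * x * (1 * 1) := by ring
      _ ≤ 2 * x * (Real.log (Real.log x) ^ k * (Real.log z / Real.log 2)) := by
          refine mul_le_mul_of_nonneg_left ?_ (by positivity)
          exact mul_le_mul h4 h5 zero_le_one (by positivity)
      _ = _ := by ring
  calc (S.card : ℝ) ≤ _ := hsplit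
    _ ≤ (2 / Real.log 2) * x * Real.log (Real.log x) ^ k * Real.log z / Real.log x +
        (2 * c1 * Real.exp (2 * C + 1)) * x * Real.log (Real.log x) ^ k * Real.log z /
          Real.log x := add_le_add (hA.trans hA') hB'
    _ = _ := by ring

end Pool.Agent.TH681.QC
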