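import Pool.Agent.TH681.QC.Box
import Pool.Agent.TH681.QC.Rough

/-!
# Multiplicative cubes of primes: a set of integers `≤ x` with more than `C x (log log x) ^ r / log x`
elements contains a cube of dimension `r`
-/

set_option autoImplicit false

namespace Pool.Agent.TH681.QC

open Finset Pool.Agent.TH813.Rough

/-- `A` contains a multiplicative cube `a ∏ (p_i or q_i)` with different primes `p_i, q_i > y` -/
def HasCube (r y : ℕ) (A : Finset ℕ) : Prop := ∃ (a : ℕ) (p q : Fin r → ℕ), 0 < a ∧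
  (∀ i, (p i).Prime ∧ y < p i) ∧ (∀ i, (q i).Prime ∧ y < q i) ∧
  Function.Injective (Sum.elim p q) ∧
  ∀ S : Finset (Fin r), a * ∏ i, (if i ∈ S then q i else p i) ∈ A

/-- dyadic intervals -/
def dy (i : ℕ) : Finset ℕ := Ico (2 ^ i) (2 ^ (i + 1))

theorem card_dy (i : ℕ) : (dy i).card = 2 ^ i := by
  unfold dy
  rw [Nat.card_Ico, pow_succ]; omega

theorem mem_dy {n : ℕ} (hn : n ≠ 0) : n ∈ dy (Nat.log 2 n) := by
  unfold dy
  rw [mem_Ico]
  exact ⟨Nat.pow_log_le_self 2 hn, Nat.lt_pow_succ_log_self (by norm_num) n⟩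

/-- the edges -/
def Edge (A : Finset ℕ) (z a : ℕ) {R : ℕ} (f : Fin R → ℕ) : Prop :=
  (∀ i, (f i).Prime ∧ z ≤ f i) ∧ StrictMono f ∧ a * ∏ i, f i ∈ A

open Classical in
/-- the box -/
noncomputable def box (A : Finset ℕ) (z a : ℕ) {R : ℕ} (j : Fin R → ℕ) : Finset (Fin R → ℕ) :=
  (Fintype.piFinset (fun i => dy (j i))).filter (Edge A z a)

/-- boxes of edges give cubes -/
theorem cube_of_box {A : Finset ℕ} {z a y R : ℕ} (ha : 0 < a) (hy : y < z) {p q : Fin R → ℕ}
    (hne : ∀ i, p i ≠ q i) (h : ∀ S : Finset (Fin R), Edge A z a (fun i => if i ∈ S then q i else p i)) :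
    HasCube R y A := by
  have hp : ∀ i, (p i).Prime ∧ z ≤ p i := fun i => by
    have := (h ∅).1 i
    simpa using this
  have hq : ∀ i, (q i).Prime ∧ z ≤ q i := fun i => by
    have := (h univ).1 i
    simpa using this
  have hpm : StrictMono p := by
    have := (h ∅).2.1
    simpa using this
  have hqm : StrictMono q := by
    have := (h univ).2.1
    simpa using this
  have hpq : ∀ i k, p i ≠ q k := by
    intro i k
    by_cases hik : i = k
    · subst hik
      exact hne i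
    · have h1 := ((h {k}).2.1.injective.ne hik)
      simp only [mem_singleton, hik, if_false, if_true] at h1
      exact h1
  refine ⟨a, p, q, ha, fun i => ⟨(hp i).1, lt_of_lt_of_le hy (hp i).2⟩,
    fun i => ⟨(hq i).1, lt_of_lt_of_le hy (hq i).2⟩, ?_, fun S => (h S).2.2⟩
  rintro (i | i) (k | k) hik <;> simp only [Sum.elim_inl, Sum.elim_inr] at hik
  · rw [hpm.injective hik]
  · exact absurd hik (hpq i k)
  · exact absurd hik.symm (hpq k i)
  · rw [hqm.injective hik]

theorem box_card {A : Finset ℕ} {t a y R : ℕ} (ha : 0 < a) (hy : y < 2 ^ t)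
    (hA : ¬ HasCube R y A) (j : Fin R → ℕ) (L : ℕ) (hL : 0 < L)
    (hz : (2 * L ^ (R + 1)) ^ (2 ^ R) ≤ 2 ^ t) :
    ((box A (2 ^ t) a j).card : ℝ) ≤ (1 / (L : ℝ) ^ (R + 1)) * ∏ i, (2 : ℝ) ^ (j i) := by
  classical
  by_contra hcon
  push Not at hcon
  have hL0 : (0 : ℝ) < L := by exact_mod_cast hL
  have hL1 : (1 : ℝ) ≤ L := by exact_mod_cast hL
  have hpos : 0 < (box A (2 ^ t) a j).card := by
    have : (0 : ℝ) < (box A (2 ^ t) a j).card := lt_of_le_of_lt (by positivity) hcon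
    exact_mod_cast this
  obtain ⟨f, hf⟩ := card_pos.1 hpos
  unfold box at hf
  rw [mem_filter, Fintype.mem_piFinset] at hf
  have htj : ∀ i, t ≤ j i := by
    intro i
    have h1 := hf.1 i
    unfold dy at h1
    rw [mem_Ico] at h1
    have : 2 ^ t < 2 ^ (j i + 1) := lt_of_le_of_lt (hf.2.1 i).2 h1.2
    have := (Nat.pow_lt_pow_iff_right (by norm_num : 1 < 2)).1 this
    omega
  obtain ⟨p, q, hne, h⟩ := boxes R (fun i => dy (j i)) (Edge A (2 ^ t) a)
    (1 / (L : ℝ) ^ (R + 1)) (by positivity) (by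
      rw [div_le_one (by positivity)]
      exact one_le_pow₀ hL1) (by
      intro i
      rw [card_dy]
      have h1 : (2 : ℝ) / (1 / (L : ℝ) ^ (R + 1)) = 2 * (L : ℝ) ^ (R + 1) := by field_simp
      rw [h1]
      have h2 : (2 * L ^ (R + 1)) ^ (2 ^ R) ≤ 2 ^ (j i) :=
        hz.trans (Nat.pow_le_pow_right (by norm_num) (htj i))
      exact_mod_cast h2) (by
      simp only [card_dy]
      push_cast
      unfold box at hcon
      exact hcon.le)
  exact hA (cube_of_box ha hy hne h)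

/-- integers with many large prime factors -/
theorem many_primes {z n R : ℕ} (hn : n ≠ 0) (h : R ≤ om z n) :
    ∃ (a : ℕ) (f : Fin R → ℕ), n = a * ∏ i, f i ∧ 0 < a ∧ (∀ i, (f i).Prime ∧ z ≤ f i) ∧
      StrictMono f ∧ ∀ i, f i ∣ n := by
  unfold om at h
  set S := n.primeFactors.filter (fun p => z ≤ p) with hS
  set e := S.orderEmbOfCardLe h with he
  have hmem : ∀ i, e i ∈ S := fun i => S.orderEmbOfCardLe_mem h i
  have hpr : ∀ i, (e i).Prime ∧ e i ∣ n ∧ z ≤ e i := by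
    intro i
    have := hmem i
    rw [hS, mem_filter, Nat.mem_primeFactors] at this
    exact ⟨this.1.1, this.1.2.1, this.2⟩
  have hd : ∏ i, e i ∣ n := by
    apply Finset.prod_dvd_of_isRelPrime
    · intro i _ k _ hik
      have h1 : Nat.Coprime (e i) (e k) :=
        (Nat.coprime_primes (hpr i).1 (hpr k).1).2 (e.injective.ne hik)
      exact Nat.coprime_iff_isRelPrime.1 h1
    · intro i _
      exact (hpr i).2.1
  obtain ⟨a, ha⟩ := hd
  refine ⟨a, e, by rw [ha]; ring, Nat.pos_of_ne_zero ?_, fun i => ⟨(hpr i).1, (hpr i).2.2⟩,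
    e.strictMono, fun i => (hpr i).2.1⟩
  rintro rfl
  exact hn (by rw [ha, mul_zero])

open Classical in
theorem count_many {A : Finset ℕ} {y R x t : ℕ} (hAx : A ⊆ Ioc 0 x) (hA : ¬ HasCube R y A)
    (hy : y < 2 ^ t) (hz : (2 * (Nat.log 2 x + 1) ^ (R + 1)) ^ (2 ^ R) ≤ 2 ^ t) :
    ((A.filter (fun n => R ≤ om (2 ^ t) n)).card : ℝ) ≤
      (x : ℝ) / ((Nat.log 2 x + 1 : ℕ) : ℝ) := by
  set L := Nat.log 2 x + 1 with hLd
  have hL : 0 < L := Nat.succ_pos _
  have hL0 : (0 : ℝ) < L := by exact_mod_cast hL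
  set J : Finset (Fin R → ℕ) := Fintype.piFinset (fun _ : Fin R => range L) with hJ
  have hsub : A.filter (fun n => R ≤ om (2 ^ t) n) ⊆
      J.biUnion (fun j => (Icc 1 (x / ∏ i, 2 ^ (j i))).biUnion (fun a =>
        (box A (2 ^ t) a j).image (fun f => a * ∏ i, f i))) := by
    intro n hn
    rw [mem_filter] at hn
    obtain ⟨hnA, hom⟩ := hn
    have hnx := mem_Ioc.1 (hAx hnA)
    obtain ⟨a, f, h1, h2, h3, h4, h5⟩ := many_primes (by omega) hom
    have hfx : ∀ i, f i ≤ x := fun i => (Nat.le_of_dvd hnx.1 (h5 i)).trans hnx.2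
    rw [mem_biUnion]
    refine ⟨fun i => Nat.log 2 (f i), ?_, ?_⟩
    · rw [hJ, Fintype.mem_piFinset]
      intro i
      rw [mem_range]
      exact Nat.lt_succ_of_le (Nat.log_mono_right (hfx i))
    · rw [mem_biUnion]
      refine ⟨a, ?_, ?_⟩
      · rw [mem_Icc]
        refine ⟨h2, ?_⟩
        rw [Nat.le_div_iff_mul_le (prod_pos (fun i _ => by positivity))]
        refine le_trans ?_ hnx.2
        rw [h1]
        exact Nat.mul_le_mul_left a (prod_le_prod' (fun i _ => Nat.pow_log_le_self 2 (h3 i).1.ne_zero))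
      · rw [mem_image]
        refine ⟨f, ?_, h1.symm⟩
        unfold box
        rw [mem_filter, Fintype.mem_piFinset]
        exact ⟨fun i => mem_dy (h3 i).1.ne_zero, h3, h4, by rw [← h1]; exact hnA⟩
  have h1 : ((A.filter (fun n => R ≤ om (2 ^ t) n)).card : ℝ) ≤
      ∑ j ∈ J, ∑ a ∈ Icc 1 (x / ∏ i, 2 ^ (j i)), ((box A (2 ^ t) a j).card : ℝ) := by
    have h2 := (card_le_card hsub).trans card_biUnion_le
    have h3 : (A.filter (fun n => R ≤ om (2 ^ t) n)).card ≤
        ∑ j ∈ J, ∑ a ∈ Icc 1 (x / ∏ i, 2 ^ (j i)), (box A (2 ^ t) a j).card := by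
      refine h2.trans (sum_le_sum (fun e _ => ?_))
      refine card_biUnion_le.trans (sum_le_sum (fun m _ => ?_))
      exact card_image_le
    exact_mod_cast h3
  refine h1.trans ?_
  calc ∑ j ∈ J, ∑ a ∈ Icc 1 (x / ∏ i, 2 ^ (j i)), ((box A (2 ^ t) a j).card : ℝ)
      ≤ ∑ j ∈ J, (1 / (L : ℝ) ^ (R + 1)) * x := by
        refine sum_le_sum (fun j _ => ?_)
        have h2 : ∑ a ∈ Icc 1 (x / ∏ i, 2 ^ (j i)), ((box A (2 ^ t) a j).card : ℝ) ≤
            ∑ a ∈ Icc 1 (x / ∏ i, 2 ^ (j i)), (1 / (L : ℝ) ^ (R + 1)) * ∏ i, (2 : ℝ) ^ (j i) := by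
          refine sum_le_sum (fun a ha => ?_)
          rw [mem_Icc] at ha
          exact box_card ha.1 hy hA j L hL hz
        refine h2.trans ?_
        rw [sum_const, Nat.card_Icc, Nat.add_sub_cancel, nsmul_eq_mul]
        have h3 : ((x / ∏ i, 2 ^ (j i) : ℕ) : ℝ) ≤ (x : ℝ) / ∏ i, (2 : ℝ) ^ (j i) := by
          have := Nat.cast_div_le (α := ℝ) (m := x) (n := ∏ i, 2 ^ (j i))
          push_cast at this
          exact this
        have hpos : (0 : ℝ) < ∏ i, (2 : ℝ) ^ (j i) := prod_pos (fun i _ => by positivity)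
        calc ((x / ∏ i, 2 ^ (j i) : ℕ) : ℝ) * (1 / (L : ℝ) ^ (R + 1) * ∏ i, (2 : ℝ) ^ (j i))
            ≤ (x : ℝ) / (∏ i, (2 : ℝ) ^ (j i)) *
              (1 / (L : ℝ) ^ (R + 1) * ∏ i, (2 : ℝ) ^ (j i)) :=
              mul_le_mul_of_nonneg_right h3 (by positivity)
          _ = (1 / (L : ℝ) ^ (R + 1)) * x := by
              field_simp
    _ = (x : ℝ) / L := by
        rw [sum_const, hJ, Fintype.card_piFinset, nsmul_eq_mul]
        simp only [card_range, prod_const, card_univ, Fintype.card_fin]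
        push_cast
        rw [pow_succ]
        field_simp

open Classical in
/-- **Large sets contain multiplicative cubes of primes.** -/
theorem cubes (r y : ℕ) : ∃ C : ℝ, 0 ≤ C ∧ ∀ x : ℕ, 16 ≤ x → ∀ A : Finset ℕ, A ⊆ Ioc 0 x →
    C * x * Real.log (Real.log x) ^ r / Real.log x < A.card → HasCube r y A := by
  rcases Nat.eq_zero_or_pos r with rfl | hr
  · refine ⟨0, le_rfl, fun x _ A hA hcard => ?_⟩
    have h1 : (0 : ℝ) < A.card := by simpa using hcard
    obtain ⟨a, ha⟩ := card_pos.1 (by exact_mod_cast h1 : 0 < A.card)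
    have ha' := mem_Ioc.1 (hA ha)
    refine ⟨a, Fin.elim0, Fin.elim0, ha'.1, fun i => i.elim0, fun i => i.elim0, ?_, ?_⟩
    · intro i; rcases i with i | i <;> exact i.elim0
    · intro S; simpa using ha
  obtain ⟨k, rfl⟩ : ∃ k, r = k + 1 := ⟨r - 1, by omega⟩
  obtain ⟨C, hC0, hC⟩ := rough_count k
  set R := k + 1 with hR
  set K : ℝ := (2 : ℝ) ^ R * (R + 2) + y + (2 : ℝ) ^ R * (R + 1) * 6 with hK
  have hK0 : 0 ≤ K := by positivity
  refine ⟨1 + C * K, by positivity, fun x hx A hAx hcard => ?_⟩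
  by_contra hA
  have hx0 : (0 : ℝ) < x := by exact_mod_cast (by omega : 0 < x)
  have hx16 : (16 : ℝ) ≤ x := by exact_mod_cast hx
  have hlog16 : Real.exp 1 ≤ Real.log 16 := by
    have h1 : Real.log 16 = 4 * Real.log 2 := by
      rw [show (16 : ℝ) = 2 ^ 4 by norm_num, Real.log_pow]; norm_num
    rw [h1]
    have := Real.log_two_gt_d9
    have := Real.exp_one_lt_d9
    linarith
  have hlx : Real.exp 1 ≤ Real.log x := hlog16.trans (Real.log_le_log (by norm_num) hx16)
  have hlx0 : 0 < Real.log x := lt_of_lt_of_le (Real.exp_pos 1) hlx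
  have hll : 1 ≤ Real.log (Real.log x) := by
    have := Real.log_le_log (Real.exp_pos 1) hlx
    rwa [Real.log_exp] at this
  have hl2' : Real.log 2 ≤ 1 := by
    have := Real.log_two_lt_d9
    linarith
  have hl2'' : 1 / 2 ≤ Real.log 2 := by
    have := Real.log_two_gt_d9
    linarith
  set L := Nat.log 2 x + 1 with hLd
  have hL : 0 < L := Nat.succ_pos _
  have hL0 : (0 : ℝ) < L := by exact_mod_cast hL
  set t := 2 ^ R * (1 + (R + 1) * (Nat.log 2 L + 1)) + y with ht
  have hz : (2 * L ^ (R + 1)) ^ (2 ^ R) ≤ 2 ^ t := by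
    have h1 : 2 * L ^ (R + 1) ≤ 2 ^ (1 + (R + 1) * (Nat.log 2 L + 1)) := by
      rw [pow_add 2 1, pow_one, mul_comm (R + 1), pow_mul 2]
      exact Nat.mul_le_mul_left 2
        (Nat.pow_le_pow_left (Nat.lt_pow_succ_log_self (by norm_num) L).le (R + 1))
    calc (2 * L ^ (R + 1)) ^ (2 ^ R) ≤ (2 ^ (1 + (R + 1) * (Nat.log 2 L + 1))) ^ (2 ^ R) :=
          Nat.pow_le_pow_left h1 _
      _ = 2 ^ (2 ^ R * (1 + (R + 1) * (Nat.log 2 L + 1))) := by rw [← pow_mul, mul_comm]
      _ ≤ 2 ^ t := Nat.pow_le_pow_right (by norm_num) (by rw [ht]; omega)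
  have hy : y < 2 ^ t := lt_of_lt_of_le (Nat.lt_two_pow_self (n := y))
    (Nat.pow_le_pow_right (by norm_num) (by rw [ht]; omega))
  have h1 := count_many hAx hA hy hz
  have h2 := hC x (2 ^ t) hx (by
    have ht1 : 1 ≤ t := by
      rw [ht]
      have : 1 ≤ 2 ^ R * (1 + (R + 1) * (Nat.log 2 L + 1)) :=
        Nat.mul_pos (by positivity) (by positivity)
      omega
    calc 2 = 2 ^ 1 := rfl
      _ ≤ 2 ^ t := Nat.pow_le_pow_right (by norm_num) ht1)
  -- the size of `L`
  have hLlow : Real.log x ≤ L := by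
    have h3 : x < 2 ^ L := Nat.lt_pow_succ_log_self (by norm_num) x
    have h4 : Real.log x ≤ Real.log ((2 : ℝ) ^ L) := by
      apply Real.log_le_log hx0
      exact_mod_cast h3.le
    rw [Real.log_pow] at h4
    have h5 : (L : ℝ) * Real.log 2 ≤ L * 1 := mul_le_mul_of_nonneg_left hl2' hL0.le
    linarith
  have hLup : (L : ℝ) ≤ 3 * Real.log x := by
    have h3 : 2 ^ (Nat.log 2 x) ≤ x := Nat.pow_log_le_self 2 (by omega)
    have h4 : Real.log ((2 : ℝ) ^ (Nat.log 2 x)) ≤ Real.log x := by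
      apply Real.log_le_log (by positivity)
      exact_mod_cast h3
    rw [Real.log_pow] at h4
    have h5 : ((Nat.log 2 x : ℕ) : ℝ) * (1 / 2) ≤ (Nat.log 2 x : ℕ) * Real.log 2 :=
      mul_le_mul_of_nonneg_left hl2'' (Nat.cast_nonneg _)
    have h6 : (1 : ℝ) ≤ Real.log x := by
      have := Real.add_one_le_exp (1 : ℝ)
      linarith
    rw [hLd]
    push_cast
    linarith
  have hlogL : Real.log L ≤ 3 * Real.log (Real.log x) := by
    have h3 : Real.log L ≤ Real.log (3 * Real.log x) := Real.log_le_log hL0 hLup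
    rw [Real.log_mul (by norm_num) hlx0.ne'] at h3
    have h4 : Real.log 3 ≤ 2 := by
      have := Real.log_le_sub_one_of_pos (show (0 : ℝ) < 3 by norm_num)
      linarith
    linarith
  have hnat : ((Nat.log 2 L : ℕ) : ℝ) ≤ 6 * Real.log (Real.log x) := by
    have h3 : 2 ^ (Nat.log 2 L) ≤ L := Nat.pow_log_le_self 2 (by omega)
    have h4 : Real.log ((2 : ℝ) ^ (Nat.log 2 L)) ≤ Real.log L := by
      apply Real.log_le_log (by positivity)
      exact_mod_cast h3
    rw [Real.log_pow] at h4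
    have h5 : ((Nat.log 2 L : ℕ) : ℝ) * (1 / 2) ≤ (Nat.log 2 L : ℕ) * Real.log 2 :=
      mul_le_mul_of_nonneg_left hl2'' (Nat.cast_nonneg _)
    linarith
  have hlz : Real.log ((2 ^ t : ℕ) : ℝ) ≤ K * Real.log (Real.log x) := by
    have h7 : ((t : ℕ) : ℝ) = (2 : ℝ) ^ R * (1 + (R + 1) * (((Nat.log 2 L : ℕ) : ℝ) + 1)) + y := by
      rw [ht]; push_cast; ring
    have h8 : Real.log ((2 ^ t : ℕ) : ℝ) = (t : ℝ) * Real.log 2 := by
      rw [Nat.cast_pow, Real.log_pow]; norm_num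
    have ht0 : (0 : ℝ) ≤ t := Nat.cast_nonneg _
    have h9 : (t : ℝ) * Real.log 2 ≤ t := by
      calc (t : ℝ) * Real.log 2 ≤ t * 1 := mul_le_mul_of_nonneg_left hl2' ht0
        _ = t := mul_one _
    rw [h8]
    refine h9.trans ?_
    rw [h7, hK]
    have h10 : (2 : ℝ) ^ R * (1 + (R + 1) * (((Nat.log 2 L : ℕ) : ℝ) + 1)) + y =
        ((2 : ℝ) ^ R * (R + 2) + y) + (2 : ℝ) ^ R * (R + 1) * ((Nat.log 2 L : ℕ) : ℝ) := by ring
    rw [h10]
    have h11 : (2 : ℝ) ^ R * (R + 2) + y ≤ ((2 : ℝ) ^ R * (R + 2) + y) * Real.log (Real.log x) :=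
      le_mul_of_one_le_right (by positivity) hll
    have h12 : (2 : ℝ) ^ R * (R + 1) * ((Nat.log 2 L : ℕ) : ℝ) ≤
        (2 : ℝ) ^ R * (R + 1) * (6 * Real.log (Real.log x)) :=
      mul_le_mul_of_nonneg_left hnat (by positivity)
    nlinarith
  clear_value t
  have hsub : A ⊆ (A.filter (fun n => R ≤ om (2 ^ t) n)) ∪
      ((Icc 1 x).filter (fun n => om (2 ^ t) n ≤ k)) := by
    intro n hn
    have hn' := mem_Ioc.1 (hAx hn)
    rw [mem_union, mem_filter, mem_filter, mem_Icc]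
    rcases Nat.lt_or_ge (om (2 ^ t) n) R with h | h
    · exact Or.inr ⟨⟨hn'.1, hn'.2⟩, by omega⟩
    · exact Or.inl ⟨hn, h⟩
  have h3 : (A.card : ℝ) ≤ (A.filter (fun n => R ≤ om (2 ^ t) n)).card +
        ((Icc 1 x).filter (fun n => om (2 ^ t) n ≤ k)).card := by
    exact_mod_cast (card_le_card hsub).trans (card_union_le _ _)
  have h4 : (x : ℝ) / L ≤ x * Real.log (Real.log x) ^ R / Real.log x := by
    calc (x : ℝ) / L ≤ x / Real.log x := div_le_div_of_nonneg_left hx0.le hlx0 hLlow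
      _ = x * 1 / Real.log x := by rw [mul_one]
      _ ≤ x * Real.log (Real.log x) ^ R / Real.log x := by
          have : (1 : ℝ) ≤ Real.log (Real.log x) ^ R := one_le_pow₀ hll
          gcongr
  have h5 : C * x * Real.log (Real.log x) ^ k * Real.log ((2 ^ t : ℕ) : ℝ) / Real.log x ≤
      C * K * (x * Real.log (Real.log x) ^ R / Real.log x) := by
    have h6 : C * x * Real.log (Real.log x) ^ k * Real.log ((2 ^ t : ℕ) : ℝ) ≤
        C * x * Real.log (Real.log x) ^ k * (K * Real.log (Real.log x)) :=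
      mul_le_mul_of_nonneg_left hlz (by positivity)
    calc C * x * Real.log (Real.log x) ^ k * Real.log ((2 ^ t : ℕ) : ℝ) / Real.log x
        ≤ C * x * Real.log (Real.log x) ^ k * (K * Real.log (Real.log x)) / Real.log x :=
          div_le_div_of_nonneg_right h6 hlx0.le
      _ = C * K * (x * Real.log (Real.log x) ^ R / Real.log x) := by
          rw [hR, pow_succ]; ring
  have h6 : (1 + C * K) * x * Real.log (Real.log x) ^ R / Real.log x =
      x * Real.log (Real.log x) ^ R / Real.log x +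
        C * K * (x * Real.log (Real.log x) ^ R / Real.log x) := by ring
  rw [h6] at hcard
  linarith

end Pool.Agent.TH681.QC
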